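import Pool.Agent.Work.MP_58debc_an.B8

open Set MeasureTheory Metric Real Pool.Agent.Work.MP_58debc_an.Data
  Pool.Agent.Work.MP_58debc_an.Ball

/-- Non-uniqueness in the Calderón problem with disjoint data in the unit ball of `ℝⁿ`, for every
`n ≥ 2` and every pair of boundary sets strictly separated by a hyperplane: a one-parameter family
of distinct, smooth, nonnegative, arbitrarily small potentials has one and the same data set. -/
theorem Pool.Agent.Results.MP_58debc_an.Ball.result (n : ℕ) (hn : 2 ≤ n)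
    (e : EuclideanSpace ℝ (Fin n)) (he : ‖e‖ = 1) (α β : ℝ) (h₁ : -1 ≤ α) (h₂ : α < β)
    (h₃ : β ≤ 1) (ΓD ΓN : Set (EuclideanSpace ℝ (Fin n)))
    (hD : ΓD ⊆ sphere 0 1 ∩ {x | β ≤ inner ℝ e x}) (hN : ΓN ⊆ sphere 0 1 ∩ {x | inner ℝ e x ≤ α})
    (ε : ℝ) (hε : 0 < ε) :
    ∃ q : ℝ → EuclideanSpace ℝ (Fin n) → ℝ,
      (∀ c, ContDiff ℝ (⊤ : ℕ∞) (q c) ∧ ∀ x, 0 ≤ q c x ∧ q c x ≤ ε) ∧
      (∀ c c', c ≠ c' → ¬ q c =ᵐ[volume.restrict (ball 0 1)] q c') ∧
      ∀ c c', cauchyData (ball 0 1) (fun x => x) (fun x => (q c x : ℂ)) ΓD ΓN =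
        cauchyData (ball 0 1) (fun x => x) (fun x => (q c' x : ℂ)) ΓD ΓN := by
  obtain ⟨a, b2, hab, ha, hb⟩ := exists_gap he h₁ h₂ h₃
  set l := min ((b2 - a) / 3) 4 with hl
  have l0 : 0 < l := lt_min (by linarith) (by norm_num)
  have l1 : l ≤ (b2 - a) / 3 := min_le_left _ _
  set K := (1 + exp (2 * b2)) ^ 2 / exp (2 * a) with hK
  have K0 : 0 < K := by positivity
  let Q : ℝ → ℝ := fun t => ε / K * bump 0 l t
  have hQ : ContDiff ℝ (⊤ : ℕ∞) Q := contDiff_const.mul (contDiff_bump 0 l)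
  have Q0 : ∀ t, 0 ≤ Q t := fun t => mul_nonneg (by positivity) (bump_nonneg _ _ _)
  have Qz : ∀ t, t ≤ 0 ∨ l ≤ t → Q t = 0 := fun t ht => by simp only [Q, bump_zero ht, mul_zero]
  let d : ℝ → ℝ := fun c => a + l * ((arctan c + π / 2) / π)
  have d1 : ∀ c, a ≤ d c := fun c => by
    have := neg_pi_div_two_lt_arctan c
    have : 0 ≤ l * ((arctan c + π / 2) / π) :=
      mul_nonneg l0.le (div_nonneg (by linarith) pi_pos.le)
    simp only [d]; linarith
  have d2 : ∀ c, d c + l ≤ a + 2 * l := fun c => by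
    have := arctan_lt_pi_div_two c
    have : (arctan c + π / 2) / π ≤ 1 := (div_le_one pi_pos).2 (by linarith)
    simp only [d]; nlinarith
  have d3 : StrictMono d := fun c c' h => by
    have := arctan_strictMono h
    simp only [d]
    gcongr
  have sm : ∀ c, ContDiff ℝ (⊤ : ℕ∞) (pot e fun t => Q (t - d c)) := fun c =>
    contDiff_pot he (hQ.comp (contDiff_id.sub contDiff_const)) (a := d c) (b := d c + l)
      (fun t ht => Qz _ (Or.inl (show t - d c ≤ 0 by linarith)))
      fun t ht => Qz _ (Or.inr (show l ≤ t - d c by linarith))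
  have ne : ∀ c c', c < c' → ¬ (pot e fun t => Q (t - d c)) =ᵐ[volume.restrict (ball 0 1)]
      pot e fun t => Q (t - d c') := fun c c' h => by
    obtain ⟨t, t1, t2⟩ := exists_between (lt_min (d3 h) (by linarith : d c < d c + l))
    refine pot_ne he (sm c).continuous (sm c').continuous (t := t) ?_
    rw [Qz (t - d c') (Or.inl (by linarith [min_le_left (d c') (d c + l)]))]
    exact (mul_pos (by positivity)
      (bump_pos (by linarith) (by linarith [min_le_right (d c') (d c + l)]))).ne'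
  have inc := fun c c' => incl hn he hQ Q0 l0.le (min_le_right _ _) Qz (d1 c) (d1 c') (d2 c) (d2 c')
    (b2 := b2) (by linarith) (fun x => x) (fun x hx h => ha x hx (hD h).2)
    fun x hx h => hb x hx (hN h).2
  refine ⟨fun c => pot e fun t => Q (t - d c), fun c => ⟨sm c, fun x =>
    ⟨mul_nonneg (Q0 _) (JJ_nonneg x), ?_⟩⟩, fun c c' h => ?_,
    fun c c' => Subset.antisymm (inc c c') (inc c' c)⟩
  · have := pot_le he (Q := fun t => Q (t - d c)) (a := a) (b := b2) (c := ε / K) (by positivity)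
      (fun t => mul_le_of_le_one_right (by positivity) (bump_le _ _ _))
      (fun t ht => Qz _ (ht.imp (fun h => by linarith [d1 c]) fun h => by linarith [d2 c])) x
    rwa [← hK, div_mul_cancel₀ _ K0.ne'] at this
  · rcases lt_or_gt_of_ne h with h | h
    · exact ne c c' h
    · exact fun H => ne c' c h H.symm
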