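import Pool.Agent.Work.MP_58debc_an.B8

open Set MeasureTheory Metric Real Pool.Agent.Work.MP_58debc_an.Data
  Pool.Agent.Work.MP_58debc_an.Ball

/-- The linearised Calderón problem with disjoint data in the unit ball of `ℝⁿ`, `n ≥ 2`: for
boundary sets strictly separated by a hyperplane the derivative at `q = 0` of the partial
Dirichlet-to-Neumann map kills infinitely many nonzero smooth potentials with disjoint supports. -/
theorem Pool.Agent.Results.MP_58debc_an.Linearized.result (n : ℕ) (hn : 2 ≤ n)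
    (e : EuclideanSpace ℝ (Fin n)) (he : ‖e‖ = 1) (α β : ℝ) (h₁ : -1 ≤ α) (h₂ : α < β)
    (h₃ : β ≤ 1) (ΓD ΓN : Set (EuclideanSpace ℝ (Fin n)))
    (hD : ΓD ⊆ sphere 0 1 ∩ {x | β ≤ inner ℝ e x})
    (hN : ΓN ⊆ sphere 0 1 ∩ {x | inner ℝ e x ≤ α}) :
    ∃ q : ℕ → EuclideanSpace ℝ (Fin n) → ℝ,
      (∀ j, ContDiff ℝ (⊤ : ℕ∞) (q j) ∧ ¬ q j =ᵐ[volume.restrict (ball 0 1)] 0) ∧
      (∀ i j, i ≠ j → ∀ x, q i x * q j x = 0) ∧
      ∀ j u, IsSolution (ball 0 1) 0 u → TraceSupportedIn (ball 0 1) (fun x => x) 0 u ΓD →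
        (∃ w, IsLinResponse (ball 0 1) (fun x => (q j x : ℂ)) u w) ∧
        ∀ w, IsLinResponse (ball 0 1) (fun x => (q j x : ℂ)) u w →
          ∀ φ ∈ neuTest (ball 0 1) (fun x => x) ΓN,
            linGreen (ball 0 1) (fun x => (q j x : ℂ)) u w φ = 0 := by
  obtain ⟨a, b2, hab, ha, hb⟩ := exists_gap he h₁ h₂ h₃
  let s : ℕ → ℝ := fun j => a + (b2 - a) / 2 * (1 / ((j : ℝ) + 1))
  have s1 : StrictAnti s := fun i j h => by
    have : (1 : ℝ) / (j + 1) < 1 / (i + 1) := Nat.one_div_lt_one_div h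
    simp only [s]
    nlinarith
  have s2 : ∀ j, a ≤ s j := fun j => by
    have : 0 ≤ (b2 - a) / 2 * (1 / ((j : ℝ) + 1)) := mul_nonneg (by linarith) (by positivity)
    simp only [s]; linarith
  have s3 : ∀ j, s j < b2 := fun j => (s1.antitone (Nat.zero_le j)).trans_lt (by
    simp only [s]; norm_num; linarith)
  let Q : ℕ → ℝ → ℝ := fun j t => (t - (s (j + 1) + s j) / 2) * bump (s (j + 1)) (s j) t
  have hQ : ∀ j, ContDiff ℝ (⊤ : ℕ∞) (Q j) := fun j =>
    (contDiff_id.sub contDiff_const).mul (contDiff_bump _ _)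
  have Qz : ∀ j t, t ≤ s (j + 1) ∨ s j ≤ t → Q j t = 0 := fun j t ht => by
    simp only [Q, bump_zero ht, mul_zero]
  have sm : ∀ j, ContDiff ℝ (⊤ : ℕ∞) (pot e (Q j)) := fun j =>
    contDiff_pot he (hQ j) (fun t ht => Qz j t (Or.inl ht.le)) fun t ht => Qz j t (Or.inr ht.le)
  have dj : ∀ i j, i < j → ∀ x, pot e (Q i) x * pot e (Q j) x = 0 := fun i j h x => by
    rcases le_total (tt e x) (s (i + 1)) with h' | h'
    · simp [pot, Qz i _ (Or.inl h')]
    · simp [pot, Qz j _ (Or.inr ((s1.antitone h).trans h'))]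
  refine ⟨fun j => pot e (Q j), fun j => ⟨sm j, ?_⟩, fun i j h x => ?_, fun j u hu hs =>
    lin_main hn he (hQ j) (Qz j) (odd_bump _ _) (s3 j) (fun x => x) (fun x hx h => ?_)
      (fun x hx h => hb x hx (hN h).2) hu.1 hs⟩
  · have z : pot e (fun _ => 0) = 0 := by ext x; simp [pot]
    have := s1 (Nat.lt_succ_self j)
    rw [← z]
    refine pot_ne he (sm j).continuous (z ▸ continuous_const) (t := (s (j + 1) + 3 * s j) / 4) ?_
    exact (mul_pos (by linarith) (bump_pos (by linarith) (by linarith))).ne'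
  · rcases lt_or_gt_of_ne h with h | h
    · exact dj i j h x
    · rw [mul_comm]; exact dj j i h x
  · have h' : sd e x < exp (2 * a) * sd (-e) x := ha x hx (hD h).2
    exact h'.trans_le (mul_le_mul_of_nonneg_right (exp_le_exp.2 (by linarith [s2 (j + 1)]))
      (sd_nonneg _ _))
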